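import Pool.Agent.Mg.Fbc14e1.Gc5c790

namespace Pool.Agent.Results.MP_bc14e1_gt.Counterexample

open Pool.Agent.MP_bc14e1_gt

/-- A knot of order two in the smooth concordance group, strongly positive amphichiral, that is
neither `0`-positive nor `0`-negative. -/
theorem result : ∃ K : LongKnot, ¬Slc (E 2) (closeUp K.f) ∧ Slc (E 2) (closeUp (sumCurve K K)) ∧
    RevInv (closeUp K.f) ∧ ¬ZeroSgn (E 2) 1 (closeUp K.f) ∧
    ¬ZeroSgn (E 2) (-1) (closeUp K.f) := by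
  obtain ⟨K, ι, Reg, Cr, _, _, reg, ρ, D, hs, hι, hdet, hK, hfix, hD, hC⟩ := knot_stmt
  have hsub := closeUp_subset_sphere K.f
  have h1 : ¬ZeroSign 1 (closeUp K.f) := fun h =>
    (ok_Obs ok_Kit.some _ ι Reg Cr reg ρ D hD hC).false
      (ok_Dbl ok_Kit.some _ ι hsub hι hdet hK h).some
  exact ⟨K, fun h => h1 (sliceZero_stmt _ hsub (slc_iff.1 h)), slc_iff.2 hs,
    ⟨ι, hι, hdet, hK, hfix⟩, fun h => h1 h.zeroSign, fun h => h1 (ok_Neg _ h.zeroSign)⟩

end Pool.Agent.Results.MP_bc14e1_gt.Counterexample
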